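import Mathlib

set_option autoImplicit false

namespace Pool.Agent.Results.MP_689627_co.JoinCounterexample

open Finset

section Game

variable {V : Type} [DecidableEq V]

/-- What `k` cops standing at `P` observe of a robber at `r`: nothing if the robber is adjacent to
every cop, and the robber's position otherwise. -/
def obs (G : SimpleGraph V) [DecidableRel G.Adj] {k : ℕ} (P : Fin k → V) (r : V) : Option V :=
  if ∀ i, G.Adj (P i) r then none else some r

/-- A cop strategy is a map `σ` assigning to the list of all observations made so far (most recent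
first) the positions the cops take next; `σ []` is the initial placement. `hist G σ r t` is the
list of observations made until the end of round `t` if the robber follows the sequence `r`
(`r 0` is his initial vertex): one observation after the initial placement, and in each round one
after the cops' move and one after the robber's move. -/
def hist (G : SimpleGraph V) [DecidableRel G.Adj] {k : ℕ} (σ : List (Option V) → Fin k → V)
    (r : ℕ → V) : ℕ → List (Option V)
  | 0 => [obs G (σ []) (r 0)]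
  | t + 1 => obs G (σ (hist G σ r t)) (r (t + 1)) :: obs G (σ (hist G σ r t)) (r t) ::
      hist G σ r t

/-- The positions of the cops after their `t`-th move (`t = 0`: initial placement). -/
def pos (G : SimpleGraph V) [DecidableRel G.Adj] {k : ℕ} (σ : List (Option V) → Fin k → V)
    (r : ℕ → V) : ℕ → Fin k → V
  | 0 => σ []
  | t + 1 => σ (hist G σ r t)

/-- `k` cops win the game Hyperopic Cops and Robber on `G`: there is a strategy, depending only on
the observations, which for every legal robber walk makes legal moves and captures the robber: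
at some time `t` a cop is on the robber's vertex, after the robber's `t`-th move (or the initial
placement) or after the cops' following move. -/
def CopsWin (G : SimpleGraph V) [DecidableRel G.Adj] (k : ℕ) : Prop :=
  ∃ σ : List (Option V) → Fin k → V, ∀ r : ℕ → V,
    (∀ t, r (t + 1) = r t ∨ G.Adj (r t) (r (t + 1))) →
      (∀ t i, pos G σ r (t + 1) i = pos G σ r t i ∨
        G.Adj (pos G σ r t i) (pos G σ r (t + 1) i)) ∧
      ∃ t i, pos G σ r t i = r t ∨ pos G σ r (t + 1) i = r t

/-- The hyperopic cop number. -/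
noncomputable def cH (G : SimpleGraph V) [DecidableRel G.Adj] : ℕ := sInf {k | CopsWin G k}

/-- `Υ(G)`: the least size of a nonempty set `S` of vertices with at most `|S|` common
neighbours. -/
noncomputable def upsilon [Fintype V] (G : SimpleGraph V) [DecidableRel G.Adj] : ℕ :=
  sInf {s | ∃ S : Finset V, S.Nonempty ∧ S.card = s ∧
    (univ.filter (fun u => ∀ v ∈ S, G.Adj v u)).card ≤ S.card}

/-- `m(G) = min {c_H(G), Υ(G)}`. -/
noncomputable def m [Fintype V] (G : SimpleGraph V) [DecidableRel G.Adj] : ℕ :=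
  min (cH G) (upsilon G)

end Game

/-- The join of two graphs. -/
def join {V W : Type} (G : SimpleGraph V) (J : SimpleGraph W) : SimpleGraph (V ⊕ W) :=
  (G ⊕g J) ⊔ completeBipartiteGraph V W

lemma join_ll {V W : Type} (G : SimpleGraph V) (J : SimpleGraph W) (a b : V) :
    (join G J).Adj (Sum.inl a) (Sum.inl b) ↔ G.Adj a b := by simp [join]

lemma join_rr {V W : Type} (G : SimpleGraph V) (J : SimpleGraph W) (a b : W) :
    (join G J).Adj (Sum.inr a) (Sum.inr b) ↔ J.Adj a b := by simp [join]

lemma join_lr {V W : Type} (G : SimpleGraph V) (J : SimpleGraph W) (a : V) (b : W) :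
    (join G J).Adj (Sum.inl a) (Sum.inr b) := by simp [join]

lemma join_rl {V W : Type} (G : SimpleGraph V) (J : SimpleGraph W) (a : W) (b : V) :
    (join G J).Adj (Sum.inr a) (Sum.inl b) := by simp [join]

instance {V W : Type} (G : SimpleGraph V) (J : SimpleGraph W)
    [DecidableRel G.Adj] [DecidableRel J.Adj] : DecidableRel (join G J).Adj := fun x y =>
  match x, y with
  | Sum.inl a, Sum.inl b => decidable_of_iff (G.Adj a b) (join_ll G J a b).symm
  | Sum.inr a, Sum.inr b => decidable_of_iff (J.Adj a b) (join_rr G J a b).symm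
  | Sum.inl a, Sum.inr b => isTrue (join_lr G J a b)
  | Sum.inr a, Sum.inl b => isTrue (join_rl G J a b)

/-- Koenig's lemma in the form we need. -/
lemma koenig {V : Type} [Finite V] (B : ℕ → Set V) (R : ℕ → V → V → Prop)
    (hB : ∀ t, (B t).Nonempty) (hR : ∀ t, ∀ r' ∈ B (t + 1), ∃ r ∈ B t, R t r r') :
    ∃ r : ℕ → V, (∀ t, r t ∈ B t) ∧ ∀ t, R t (r t) (r (t + 1)) := by
  have h1 : ∀ T, ∀ v ∈ B T, ∃ f : ℕ → V, f T = v ∧ (∀ t ≤ T, f t ∈ B t) ∧
      ∀ t < T, R t (f t) (f (t + 1)) := by
    intro T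
    induction T with
    | zero =>
      intro v hv
      refine ⟨fun _ => v, rfl, ?_, ?_⟩
      · intro t ht
        rw [Nat.le_zero.mp ht]; exact hv
      · intro t ht; omega
    | succ T ih =>
      intro v hv
      obtain ⟨u, hu, huv⟩ := hR T v hv
      obtain ⟨f, hfT, hfB, hfR⟩ := ih u hu
      refine ⟨fun t => if t = T + 1 then v else f t, by simp, ?_, ?_⟩
      · intro t ht
        by_cases h : t = T + 1
        · simp only [h, if_true]; exact hv
        · simp only [h, if_false]; exact hfB t (by omega)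
      · intro t ht
        have h : t ≠ T + 1 := by omega
        by_cases h2 : t = T
        · subst h2
          simp only [h, if_false, if_true, hfT]
          exact huv
        · have h3 : t + 1 ≠ T + 1 := by omega
          simp only [h, h3, if_false]
          exact hfR t (by omega)
  choose v hv using hB
  choose f hfT hfB hfR using fun T => h1 T (v T) (hv T)
  have h2 : ∀ t, ∃ a : V, ∀ᶠ T in (Filter.hyperfilter ℕ : Filter ℕ), f T t = a := by
    intro t
    obtain ⟨a, ha⟩ := ((Filter.hyperfilter ℕ).map (fun T => f T t)).eq_pure_of_finite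
    refine ⟨a, ?_⟩
    have h3 : ({a} : Set V) ∈ ((Filter.hyperfilter ℕ).map (fun T => f T t)) := by
      rw [ha]; exact Ultrafilter.mem_pure.mpr rfl
    exact h3
  choose r hr using h2
  have hlarge : ∀ t, ∀ᶠ T in (Filter.hyperfilter ℕ : Filter ℕ), t < T := by
    intro t
    exact Nat.hyperfilter_le_atTop (Filter.eventually_gt_atTop t)
  refine ⟨r, ?_, ?_⟩
  · intro t
    obtain ⟨T, h3, h4⟩ := ((hr t).and (hlarge t)).exists
    rw [← h3]
    exact hfB T t h4.le
  · intro t
    obtain ⟨T, ⟨h3, h3'⟩, h4⟩ := (((hr t).and (hr (t + 1))).and (hlarge t)).exists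
    rw [← h3, ← h3']
    exact hfR T t h4

/-- `G = K₃ ∨ 2K₂`: the vertices `0, 1, 2` are adjacent to all others, and `3–4`, `5–6` are the
only further edges. -/
def G : SimpleGraph (Fin 7) where
  Adj i j := i ≠ j ∧ (i < 3 ∨ j < 3 ∨ (i < 5 ∧ j < 5) ∨ (4 < i ∧ 4 < j))
  symm := ⟨by intro i j h; revert i j; decide +kernel⟩
  loopless := ⟨fun i h => h.1 rfl⟩

instance : DecidableRel G.Adj := fun i j =>
  inferInstanceAs (Decidable (i ≠ j ∧ (i < 3 ∨ j < 3 ∨ (i < 5 ∧ j < 5) ∨ (4 < i ∧ 4 < j))))

/-- `J`: the path on three vertices with middle vertex `0`. -/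
def J : SimpleGraph (Fin 3) where
  Adj i j := i ≠ j ∧ (i = 0 ∨ j = 0)
  symm := ⟨by intro i j h; revert i j; decide +kernel⟩
  loopless := ⟨fun i h => h.1 rfl⟩

instance : DecidableRel J.Adj := fun i j =>
  inferInstanceAs (Decidable (i ≠ j ∧ (i = 0 ∨ j = 0)))

lemma G_connected : G.Connected := by
  rw [SimpleGraph.connected_iff]
  refine ⟨fun u v => ?_, ⟨0⟩⟩
  have h : ∀ w : Fin 7, G.Reachable 0 w := by
    intro w
    by_cases hw : w = 0
    · rw [hw]
    · exact SimpleGraph.Adj.reachable ⟨fun h => hw h.symm, Or.inl (by decide)⟩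
  exact (h u).symm.trans (h v)

lemma J_connected : J.Connected := by
  rw [SimpleGraph.connected_iff]
  refine ⟨fun u v => ?_, ⟨0⟩⟩
  have h : ∀ w : Fin 3, J.Reachable 0 w := by
    intro w
    by_cases hw : w = 0
    · rw [hw]
    · exact SimpleGraph.Adj.reachable ⟨fun h => hw h.symm, Or.inl rfl⟩
  exact (h u).symm.trans (h v)

/-! ### Two cops win on `G` -/

/-- A winning strategy of two cops on `G`. -/
def strat : List (Option (Fin 7)) → Fin 2 → Fin 7
  | [] => ![0, 3]
  | [o] => if o = some 5 then ![5, 3] else if o = some 6 then ![6, 3] else ![1, 2]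
  | [_, _, o] => if o = some 5 then ![5, 3] else if o = some 6 then ![6, 3] else ![0, 5]
  | [o', _, _, _, o] => if o = some 5 then ![5, 3] else if o = some 6 then ![6, 3] else
      if o' = some 3 then ![3, 5] else if o' = some 4 then ![4, 5] else ![1, 2]
  | _ :: _ :: h => strat h

lemma hist_length (r : ℕ → Fin 7) (t : ℕ) : (hist G strat r t).length = 2 * t + 1 := by
  induction t with
  | zero => rfl
  | succ t ih =>
    simp only [hist, List.length_cons, ih]
    ring

lemma strat_long (a b : Option (Fin 7)) (h : List (Option (Fin 7))) (hh : 5 ≤ h.length) :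
    strat (a :: b :: h) = strat h := by
  match h, hh with
  | c :: d :: e :: f :: g :: h, _ => simp only [strat]

/-- Positions after the first move. -/
def s1 (a : Fin 7) : Fin 2 → Fin 7 := strat [obs G ![0, 3] a]

/-- Positions after the second move. -/
def s2 (a b : Fin 7) : Fin 2 → Fin 7 :=
  strat [obs G (s1 a) b, obs G (s1 a) a, obs G ![0, 3] a]

/-- Positions after the third move. -/
def s3 (a b c : Fin 7) : Fin 2 → Fin 7 :=
  strat [obs G (s2 a b) c, obs G (s2 a b) b, obs G (s1 a) b, obs G (s1 a) a, obs G ![0, 3] a]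

lemma strat_check : ∀ a b c : Fin 7, (b = a ∨ G.Adj a b) → (c = b ∨ G.Adj b c) →
    (∀ i, s1 a i = (![0, 3] : Fin 2 → Fin 7) i ∨ G.Adj ((![0, 3] : Fin 2 → Fin 7) i) (s1 a i)) ∧
    (∀ i, s2 a b i = s1 a i ∨ G.Adj (s1 a i) (s2 a b i)) ∧
    (∀ i, s3 a b c i = s2 a b i ∨ G.Adj (s2 a b i) (s3 a b c i)) ∧
    ((∃ i, (![0, 3] : Fin 2 → Fin 7) i = a ∨ s1 a i = a) ∨ (∃ i, s1 a i = b ∨ s2 a b i = b) ∨
      (∃ i, s2 a b i = c ∨ s3 a b c i = c)) := by
  decide +kernel

lemma two_cops_win : CopsWin G 2 := by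
  refine ⟨strat, fun r hr => ?_⟩
  obtain ⟨h1, h2, h3, h4⟩ := strat_check (r 0) (r 1) (r 2) (hr 0) (hr 1)
  constructor
  · intro t i
    match t with
    | 0 => exact h1 i
    | 1 => exact h2 i
    | 2 => exact h3 i
    | t + 3 =>
      left
      show strat (hist G strat r (t + 3)) i = strat (hist G strat r (t + 2)) i
      rw [hist, strat_long _ _ _ (by rw [hist_length]; omega)]
  · rcases h4 with ⟨i, h⟩ | ⟨i, h⟩ | ⟨i, h⟩
    · exact ⟨0, i, h⟩
    · exact ⟨1, i, h⟩
    · exact ⟨2, i, h⟩

lemma m_G_le : m G ≤ 2 :=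
  (min_le_left _ _).trans (Nat.sInf_le two_cops_win)

lemma m_J_le : m J ≤ 1 := by
  refine (min_le_right _ _).trans (Nat.sInf_le ⟨{1}, by simp, by simp, ?_⟩)
  decide +kernel

/-! ### Three cops do not win on the join -/

/-- Numbering of the ten vertices of the join. -/
def code : Fin 7 ⊕ Fin 3 → ℕ
  | Sum.inl i => i.val
  | Sum.inr j => 7 + j.val

lemma code_lt (v : Fin 7 ⊕ Fin 3) : code v < 10 := by
  rcases v with v | v <;> simp only [code] <;> omega

/-- Adjacency bit masks. -/
def am (i : ℕ) : ℕ :=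
  [1022, 1021, 1019, 919, 911, 967, 935, 895, 255, 255].getD i 0

/-- The belief sets (as bit masks) which the robber can maintain. -/
def safeL : List ℕ :=
  [135, 15, 23, 39, 71, 139, 147, 163, 195, 141, 149, 165, 197, 142, 150, 166, 198, 771, 773, 897, 774, 898, 900, 120, 792, 864]

/-- Common neighbours of three vertices. -/
def cn3 (a b c : ℕ) : ℕ := am a &&& am b &&& am c

/-- Closed neighbourhood of a set. -/
def nb (B : ℕ) : ℕ :=
  (List.range 10).foldl (fun acc i => if B.testBit i then acc ||| (am i ||| 2 ^ i) else acc) 0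

/-- Does the set contain one of the belief sets of the list? -/
def hasSafe (x : ℕ) : Bool := safeL.any (fun B => B &&& x == B)

/-- Occupied sets of one, two or three vertices. -/
def occ : List ℕ :=
  [1, 2, 3, 4, 5, 6, 7, 8, 9, 10, 11, 12, 13, 14, 16, 17, 18, 19, 20, 21, 22, 24, 25, 26, 28, 32, 33, 34, 35, 36, 37, 38, 40, 41, 42, 44, 48, 49, 50, 52, 56, 64, 65, 66, 67, 68, 69, 70, 72, 73, 74, 76, 80, 81, 82, 84, 88, 96, 97, 98, 100, 104, 112, 128, 129, 130, 131, 132, 133, 134, 136, 137, 138, 140, 144, 145, 146, 148, 152, 160, 161, 162, 164, 168, 176, 192, 193, 194, 196, 200, 208, 224, 256, 257, 258, 259, 260, 261, 262, 264, 265, 266, 268, 272, 273, 274, 276, 280, 288, 289, 290, 292, 296, 304, 320, 321, 322, 324, 328, 336, 352, 384, 385, 386, 388, 392, 400, 416, 448, 512, 513, 514, 515, 516, 517, 518, 520, 521, 522, 524, 528, 529, 530, 532, 536, 544, 545, 546, 548, 552, 560, 576, 577, 578, 580, 584, 592, 608, 640, 641, 642, 644, 648, 656, 672, 704, 768, 769, 770, 772, 776, 784, 800, 832,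 896]

/-- Common neighbours of a set. -/
def cnM (M : ℕ) : ℕ :=
  (List.range 10).foldl (fun acc i => if M.testBit i then acc &&& am i else acc) 1023

/-- The robber can answer the cops' move to the occupied set `M`, where `cn` is the set of common
neighbours of `M`. -/
def stepB (B M cn : ℕ) : Bool :=
  hasSafe (nb (B &&& cn) &&& cn) ||
  (List.range 10).any (fun r => B.testBit r && (!(M.testBit r)) &&
    (!(cn.testBit r)) && hasSafe ((am r ||| 2 ^ r) &&& cn))

lemma step_check : (occ.all (fun M => safeL.all (fun B => stepB B M (cnM M)))) = true := by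
  decide +kernel

lemma init_check : (occ.all (fun M => hasSafe (cnM M))) = true := by
  decide +kernel

lemma occ_check : ((List.range 10).all (fun a => (List.range 10).all
    (fun b => (List.range 10).all (fun c => occ.contains (2 ^ a ||| (2 ^ b ||| 2 ^ c)) &&
      (cnM (2 ^ a ||| (2 ^ b ||| 2 ^ c)) == cn3 a b c))))) = true := by
  decide +kernel

lemma occ_spec {a b c : ℕ} (ha : a < 10) (hb : b < 10) (hc : c < 10) :
    (2 ^ a ||| (2 ^ b ||| 2 ^ c)) ∈ occ ∧ cnM (2 ^ a ||| (2 ^ b ||| 2 ^ c)) = cn3 a b c := by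
  have h := occ_check
  rw [List.all_eq_true] at h
  have h2 := h a (by simpa using ha)
  rw [List.all_eq_true] at h2
  have h3 := h2 b (by simpa using hb)
  rw [List.all_eq_true] at h3
  have h4 := h3 c (by simpa using hc)
  simp only [Bool.and_eq_true, List.contains_iff_mem, beq_iff_eq] at h4
  exact h4

lemma adj_iff : ∀ v w : Fin 7 ⊕ Fin 3,
    (join G J).Adj v w ↔ (am (code v)).testBit (code w) = true := by
  decide +kernel

lemma code_inj : ∀ v w : Fin 7 ⊕ Fin 3, code v = code w → v = w := by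
  decide +kernel

lemma code_surj : ∀ i < 10, ∃ v : Fin 7 ⊕ Fin 3, code v = i := by
  decide +kernel

lemma safe_nonempty : ∀ B ∈ safeL, ∃ v : Fin 7 ⊕ Fin 3, B.testBit (code v) = true := by
  decide +kernel

lemma hasSafe_iff {x : ℕ} (h : hasSafe x = true) :
    ∃ B ∈ safeL, ∀ i, B.testBit i = true → x.testBit i = true := by
  unfold hasSafe at h
  rw [List.any_eq_true] at h
  obtain ⟨B, hB, h2⟩ := h
  refine ⟨B, hB, fun i hi => ?_⟩
  have h3 : B &&& x = B := by simpa using h2
  rw [← h3, Nat.testBit_land] at hi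
  simp only [Bool.and_eq_true] at hi
  exact hi.2

lemma foldl_aux (l : List ℕ) (B acc j : ℕ)
    (h : (l.foldl (fun acc i => if B.testBit i then acc ||| (am i ||| 2 ^ i) else acc)
      acc).testBit j = true) :
    acc.testBit j = true ∨ ∃ i ∈ l, B.testBit i = true ∧ (am i ||| 2 ^ i).testBit j = true := by
  induction l generalizing acc with
  | nil => left; exact h
  | cons i l ih =>
    rw [List.foldl_cons] at h
    rcases ih _ h with h1 | ⟨k, hk, h1⟩
    · by_cases hB : B.testBit i = true
      · rw [if_pos hB, Nat.testBit_lor, Bool.or_eq_true] at h1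
        rcases h1 with h1 | h1
        · left; exact h1
        · right; exact ⟨i, by simp, hB, h1⟩
      · rw [if_neg hB] at h1
        left; exact h1
    · right; exact ⟨k, by simp [hk], h1⟩

lemma nb_spec {B j : ℕ} (h : (nb B).testBit j = true) :
    ∃ i < 10, B.testBit i = true ∧ (am i ||| 2 ^ i).testBit j = true := by
  rcases foldl_aux _ _ _ _ h with h1 | ⟨i, hi, h1⟩
  · simp at h1
  · exact ⟨i, by simpa using hi, h1⟩

lemma move_of_bit {v w : Fin 7 ⊕ Fin 3}
    (h : (am (code v) ||| 2 ^ code v).testBit (code w) = true) :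
    w = v ∨ (join G J).Adj v w := by
  rw [Nat.testBit_lor, Bool.or_eq_true, Nat.testBit_two_pow] at h
  rcases h with h | h
  · right; exact (adj_iff v w).mpr h
  · left
    exact (code_inj v w (by simpa using h)).symm

lemma cn3_iff (p : Fin 3 → Fin 7 ⊕ Fin 3) (r : Fin 7 ⊕ Fin 3) :
    (cn3 (code (p 0)) (code (p 1)) (code (p 2))).testBit (code r) = true ↔
      ∀ i, (join G J).Adj (p i) r := by
  unfold cn3
  rw [Nat.testBit_land, Nat.testBit_land, Bool.and_eq_true, Bool.and_eq_true, Fin.forall_fin_succ,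
    Fin.forall_fin_two]
  rw [← adj_iff, ← adj_iff, ← adj_iff, and_assoc]
  rfl

lemma obs_none {k : ℕ} {P : Fin k → Fin 7 ⊕ Fin 3} {r : Fin 7 ⊕ Fin 3}
    (h : ∀ i, (join G J).Adj (P i) r) : obs (join G J) P r = none := by
  unfold obs
  rw [if_pos h]

lemma adj_of_obs {k : ℕ} {P : Fin k → Fin 7 ⊕ Fin 3} {r : Fin 7 ⊕ Fin 3}
    (h : obs (join G J) P r = none) (i : Fin k) : (join G J).Adj (P i) r := by
  unfold obs at h
  by_cases h1 : ∀ i, (join G J).Adj (P i) r
  · exact h1 i
  · rw [if_neg h1] at h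
    exact absurd h (by simp)

lemma ne_of_obs {k : ℕ} {P : Fin k → Fin 7 ⊕ Fin 3} {r : Fin 7 ⊕ Fin 3}
    (h : obs (join G J) P r = none) (i : Fin k) : P i ≠ r := by
  intro h1
  have := adj_of_obs h i
  rw [h1] at this
  exact (join G J).loopless.irrefl _ this

/-- Padding of at most three cops to exactly three. -/
def pad {k : ℕ} (hk1 : 1 ≤ k) : Fin 3 → Fin k := fun i => ⟨min i.val (k - 1), by omega⟩

lemma pad_surj {k : ℕ} (hk1 : 1 ≤ k) (hk3 : k ≤ 3) (j : Fin k) : ∃ i, pad hk1 i = j := by
  refine ⟨⟨j.val, by omega⟩, ?_⟩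
  unfold pad
  ext
  simp only
  omega

lemma step_k {k : ℕ} (hk1 : 1 ≤ k) (hk3 : k ≤ 3) (P : Fin k → Fin 7 ⊕ Fin 3) (B : ℕ) :
    ∃ (o : Option (Fin 7 ⊕ Fin 3)) (B' : ℕ), B ∈ safeL → B' ∈ safeL ∧
      ∀ r', B'.testBit (code r') = true → ∃ r, B.testBit (code r) = true ∧
        ((r' = r ∨ (join G J).Adj r r') ∧ obs (join G J) P r = o ∧
          obs (join G J) P r' = none ∧ ∀ i, P i ≠ r) := by
  by_cases hB : B ∈ safeL
  swap
  · exact ⟨none, 0, fun h => absurd h hB⟩
  have hall : ∀ r, (∀ i, (join G J).Adj (P (pad hk1 i)) r) ↔ ∀ i, (join G J).Adj (P i) r := by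
    intro r
    constructor
    · intro h i
      obtain ⟨j, rfl⟩ := pad_surj hk1 hk3 i
      exact h j
    · intro h i
      exact h _
  have hcn := fun r => (cn3_iff (fun i => P (pad hk1 i)) r).trans (hall r)
  set a := code (P (pad hk1 0)) with ha
  set b := code (P (pad hk1 1)) with hb
  set c := code (P (pad hk1 2)) with hc
  obtain ⟨hM, hMc⟩ := occ_spec (a := a) (b := b) (c := c) (code_lt _) (code_lt _) (code_lt _)
  have h1 := step_check
  rw [List.all_eq_true] at h1
  have h2 := h1 _ hM
  rw [List.all_eq_true] at h2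
  have h5 := h2 B hB
  rw [hMc] at h5
  unfold stepB at h5
  rw [Bool.or_eq_true] at h5
  rcases h5 with h5 | h5
  · obtain ⟨B', hB', h6⟩ := hasSafe_iff h5
    refine ⟨none, B', fun _ => ⟨hB', fun r' hr' => ?_⟩⟩
    have h7 := h6 _ hr'
    rw [Nat.testBit_land, Bool.and_eq_true] at h7
    obtain ⟨i, hi, h8, h9⟩ := nb_spec h7.1
    obtain ⟨r, rfl⟩ := code_surj i hi
    rw [Nat.testBit_land, Bool.and_eq_true] at h8
    have h10 := obs_none ((hcn r).mp h8.2)
    exact ⟨r, h8.1, move_of_bit h9, h10, obs_none ((hcn r').mp h7.2), ne_of_obs h10⟩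
  · rw [List.any_eq_true] at h5
    obtain ⟨i, hi, h6⟩ := h5
    simp only [Bool.and_eq_true, Bool.not_eq_true'] at h6
    obtain ⟨⟨⟨g1, g2⟩, g5⟩, g6⟩ := h6
    obtain ⟨r, rfl⟩ := code_surj i (by simpa using hi)
    obtain ⟨B', hB', h6⟩ := hasSafe_iff g6
    refine ⟨some r, B', fun _ => ⟨hB', fun r' hr' => ?_⟩⟩
    have h7 := h6 _ hr'
    rw [Nat.testBit_land, Bool.and_eq_true] at h7
    refine ⟨r, g1, move_of_bit h7.1, ?_, obs_none ((hcn r').mp h7.2), ?_⟩
    · unfold obs
      rw [if_neg]
      intro h8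
      have := (hcn r).mpr h8
      rw [this] at g5
      exact absurd g5 (by simp)
    · intro j hj
      obtain ⟨i, rfl⟩ := pad_surj hk1 hk3 j
      rw [Nat.testBit_lor, Nat.testBit_lor, Bool.or_eq_false_iff, Bool.or_eq_false_iff,
        Nat.testBit_two_pow, Nat.testBit_two_pow, Nat.testBit_two_pow] at g2
      simp only [decide_eq_false_iff_not] at g2
      fin_cases i
      · exact g2.1 (by rw [ha, ← hj]; rfl)
      · exact g2.2.1 (by rw [hb, ← hj]; rfl)
      · exact g2.2.2 (by rw [hc, ← hj]; rfl)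

lemma init_k {k : ℕ} (hk1 : 1 ≤ k) (hk3 : k ≤ 3) (P : Fin k → Fin 7 ⊕ Fin 3) :
    ∃ B ∈ safeL, ∀ r, B.testBit (code r) = true → obs (join G J) P r = none := by
  have hall : ∀ r, (∀ i, (join G J).Adj (P (pad hk1 i)) r) ↔ ∀ i, (join G J).Adj (P i) r := by
    intro r
    constructor
    · intro h i
      obtain ⟨j, rfl⟩ := pad_surj hk1 hk3 i
      exact h j
    · intro h i
      exact h _
  have hcn := fun r => (cn3_iff (fun i => P (pad hk1 i)) r).trans (hall r)
  obtain ⟨hM, hMc⟩ := occ_spec (a := code (P (pad hk1 0))) (b := code (P (pad hk1 1)))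
    (c := code (P (pad hk1 2))) (code_lt _) (code_lt _) (code_lt _)
  have h2 := init_check
  rw [List.all_eq_true] at h2
  have h5 := h2 _ hM
  rw [hMc] at h5
  obtain ⟨B, hB, h6⟩ := hasSafe_iff h5
  exact ⟨B, hB, fun r hr => obs_none ((hcn r).mp (h6 _ hr))⟩

lemma not_win {k : ℕ} (hk1 : 1 ≤ k) (hk3 : k ≤ 3) : ¬ CopsWin (join G J) k := by
  rintro ⟨σ, hσ⟩
  choose fo fB hstep using fun (P : Fin k → Fin 7 ⊕ Fin 3) (B : ℕ) => step_k hk1 hk3 P B
  obtain ⟨B0, hB0, hinit⟩ := init_k hk1 hk3 (σ [])
  let st : ℕ → List (Option (Fin 7 ⊕ Fin 3)) × ℕ := fun t =>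
    Nat.rec ([none], B0) (fun _ s => (none :: fo (σ s.1) s.2 :: s.1, fB (σ s.1) s.2)) t
  have st0 : st 0 = ([none], B0) := rfl
  have stS : ∀ t, st (t + 1) = (none :: fo (σ (st t).1) (st t).2 :: (st t).1,
      fB (σ (st t).1) (st t).2) := fun t => rfl
  have hsafe : ∀ t, (st t).2 ∈ safeL := by
    intro t
    induction t with
    | zero => exact hB0
    | succ t ih =>
      rw [stS]
      exact (hstep _ _ ih).1
  obtain ⟨r, hrB, hrR⟩ := koenig (fun t => {v | (st t).2.testBit (code v) = true})
    (fun t v v' => (v' = v ∨ (join G J).Adj v v') ∧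
      obs (join G J) (σ (st t).1) v = fo (σ (st t).1) (st t).2 ∧
      obs (join G J) (σ (st t).1) v' = none ∧ ∀ i, σ (st t).1 i ≠ v)
    (fun t => safe_nonempty _ (hsafe t))
    (fun t r' hr' => by
      have h1 := (hstep (σ (st t).1) (st t).2 (hsafe t)).2 r' (by rw [stS] at hr'; exact hr')
      exact h1)
  have hhist : ∀ t, hist (join G J) σ r t = (st t).1 := by
    intro t
    induction t with
    | zero =>
      have h1 := hinit (r 0) (hrB 0)
      rw [st0, hist, h1]
    | succ t ih =>
      rw [hist, ih, stS, (hrR t).2.1, (hrR t).2.2.1]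
  obtain ⟨-, t, i, h⟩ := hσ r (fun t => (hrR t).1)
  rcases h with h | h
  · match t with
    | 0 => exact ne_of_obs (hinit (r 0) (hrB 0)) i h
    | t + 1 =>
      have h1 : σ (hist (join G J) σ r t) i = r (t + 1) := h
      rw [hhist t] at h1
      exact ne_of_obs (hrR t).2.2.1 i h1
  · have h1 : σ (hist (join G J) σ r t) i = r t := h
    rw [hhist t] at h1
    exact (hrR t).2.2.2 i h1

lemma not_win_zero : ¬ CopsWin (join G J) 0 := by
  rintro ⟨σ, hσ⟩
  obtain ⟨-, t, i, -⟩ := hσ (fun _ => Sum.inl 0) (fun _ => Or.inl rfl)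
  exact i.elim0

lemma exists_win : ∃ k, CopsWin (join G J) k := by
  have hcard : Fintype.card (Fin 7 ⊕ Fin 3) = 10 := by simp
  let e : Fin 10 ≃ (Fin 7 ⊕ Fin 3) := (Fintype.equivFinOfCardEq hcard).symm
  refine ⟨10, fun _ => e, fun r _ => ⟨?_, 0, e.symm (r 0), Or.inl ?_⟩⟩
  · intro t i
    left
    cases t <;> rfl
  · show e (e.symm (r 0)) = r 0
    simp

/-- There are connected graphs `G`, `J` with `c_H(G ∨ J) > m(G) + m(J)`. -/
theorem result : G.Connected ∧ J.Connected ∧ m G + m J < cH (join G J) := by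
  refine ⟨G_connected, J_connected, ?_⟩
  have h1 := m_G_le
  have h2 := m_J_le
  have h3 : 4 ≤ cH (join G J) := by
    have hmem : cH (join G J) ∈ {k | CopsWin (join G J) k} := Nat.sInf_mem exists_win
    by_contra hcon
    push Not at hcon
    rcases Nat.eq_zero_or_pos (cH (join G J)) with h0 | h0
    · rw [h0] at hmem
      exact not_win_zero hmem
    · exact not_win h0 (by omega) hmem
  omega

end Pool.Agent.Results.MP_689627_co.JoinCounterexample
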